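import Mathlib

open Set Filter Topology Cardinal Ordinal Order

namespace Pool.Agent.Results.MP_99bf3a_gt.NoFanNotK

universe u v

/-- An indexed family of subsets is compact-finite if every compact set meets
only finitely many of its members. -/
def CompactFinite {X : Type u} [TopologicalSpace X] {ι : Type v} (F : ι → Set X) : Prop :=
  ∀ K : Set X, IsCompact K → {i | (F i ∩ K).Nonempty}.Finite

/-- A fan: an indexed family that is compact-finite but not locally finite. -/
def IsFan {X : Type u} [TopologicalSpace X] {ι : Type v} (F : ι → Set X) : Prop :=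
  CompactFinite F ∧ ¬ LocallyFinite F

/-- A k-space: a set whose trace on every compact subspace is closed in that subspace
is closed. -/
def IsKSpace (X : Type u) [TopologicalSpace X] : Prop :=
  ∀ C : Set X, (∀ K : Set X, IsCompact K → IsClosed ((Subtype.val : K → X) ⁻¹' C)) → IsClosed C

/-- The ordinals `≤ ω₂` whose cofinality is not `ℵ₁`. -/
def S : Set Ordinal.{u} := {a | a ≤ ω_ 2 ∧ a.cof ≠ ℵ₁}

lemma cof_omega_two : (ω_ 2 : Ordinal.{u}).cof = ℵ_ 2 := by
  have := cof_omega_add_one.{u} 1
  norm_num at this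
  exact this

lemma aleph_one_lt_two : (ℵ₁ : Cardinal.{u}) < ℵ_ 2 := by
  rw [aleph_lt_aleph]; norm_num

lemma mem_S_top : (ω_ 2 : Ordinal.{u}) ∈ S := by
  refine ⟨le_rfl, ?_⟩
  rw [cof_omega_two]
  exact aleph_one_lt_two.ne'

/-- Every sequence in `S` has a convergent subsequence with limit in `S`. -/
lemma exists_subseq (x : ℕ → Ordinal.{u}) (hx : ∀ n, x n ∈ S) :
    ∃ y ∈ (S : Set Ordinal.{u}), ∃ φ : ℕ → ℕ, StrictMono φ ∧ Tendsto (x ∘ φ) atTop (𝓝 y) := by
  obtain ⟨g, hg | hg⟩ := exists_increasing_or_nonincreasing_subseq (· ≤ ·) x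
  · have hmono : Monotone (x ∘ g) := by
      intro m n hmn
      rcases hmn.eq_or_lt with h | h
      · simp [h]
      · exact hg m n h
    have hbdd : BddAbove (range (x ∘ g)) := ⟨ω_ 2, by rintro _ ⟨n, rfl⟩; exact (hx _).1⟩
    refine ⟨⨆ n, (x ∘ g) n, ⟨?_, ?_⟩, g, g.strictMono, tendsto_atTop_ciSup hmono hbdd⟩
    · exact ciSup_le fun n => (hx _).1
    · intro hcof
      by_cases h : ∃ n, (x ∘ g) n = ⨆ n, (x ∘ g) n
      · obtain ⟨n, hn⟩ := h
        rw [← hn] at hcof
        exact (hx _).2 hcof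
      · push Not at h
        have hlt : ∀ n, (x ∘ g) n < ⨆ n, (x ∘ g) n := fun n => lt_of_le_of_ne (le_ciSup hbdd n) (h n)
        have := lift_iSup_lt_of_lt_cof (f := x ∘ g) (a := ⨆ n, (x ∘ g) n) (by
          rw [Ordinal.lift_uzero, hcof]; simp) hlt
        exact lt_irrefl _ this
  · exfalso
    have hanti : ∀ m n, m < n → x (g n) < x (g m) := fun m n h => not_le.mp (hg m n h)
    exact (RelEmbedding.not_wellFounded (r := ((· < ·) : Ordinal.{u} → Ordinal.{u} → Prop))
      (RelEmbedding.natGT (fun n => x (g n)) fun n => hanti n (n+1) (Nat.lt_succ_self n)))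
      wellFounded_lt

/-- A closed subset of `S` is countable. -/
lemma countable_of_isClosed (K : Set Ordinal.{u}) (hK : IsClosed K) (hKS : K ⊆ S) : K.Countable := by
  by_contra hunc
  -- the least `s` such that `K ∩ [0,s)` is uncountable
  have hne : {s : Ordinal.{u} | ¬ (K ∩ Iio s).Countable}.Nonempty := by
    refine ⟨succ (ω_ 2), ?_⟩
    have : K ∩ Iio (succ (ω_ 2)) = K := by
      rw [inter_eq_left]
      intro a ha
      simpa using (hKS ha).1
    change ¬ (K ∩ Iio (succ (ω_ 2))).Countable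
    rw [this]
    exact hunc
  set s := sInf {s : Ordinal.{u} | ¬ (K ∩ Iio s).Countable} with hs
  have hs1 : ¬ (K ∩ Iio s).Countable := csInf_mem hne
  have hs2 : ∀ t < s, (K ∩ Iio t).Countable := by
    intro t ht
    by_contra h
    exact absurd (csInf_le' h) (not_le.mpr ht)
  -- choose a subset `A` of cardinality `ℵ₁`
  have hs1' : ℵ₁ ≤ #(K ∩ Iio s : Set Ordinal.{u}) := by
    rw [← succ_aleph0, succ_le_iff]
    rw [← not_le, le_aleph0_iff_set_countable]
    exact hs1
  obtain ⟨A, hAsub, hA⟩ := (le_mk_iff_exists_subset).1 hs1'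
  have hAunc : ¬ A.Countable := by
    rw [← le_aleph0_iff_set_countable, hA, not_le]
    exact aleph0_lt_aleph_one
  have hAne : A.Nonempty := by
    by_contra h
    rw [not_nonempty_iff_eq_empty] at h
    exact hAunc (h ▸ countable_empty)
  have hAlt : ∀ a ∈ A, a < s := fun a ha => (hAsub ha).2
  have hAbdd : BddAbove A := ⟨s, fun a ha => (hAlt a ha).le⟩
  -- `A` is unbounded in `s`
  have hsup : sSup A = s := by
    apply le_antisymm (csSup_le' fun a ha => (hAlt a ha).le)
    by_contra hcon
    rw [not_le] at hcon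
    apply hAunc
    have h1 : A ⊆ (K ∩ Iio (sSup A)) ∪ {sSup A} := by
      intro b hb
      rcases (le_csSup hAbdd hb).eq_or_lt with h | h
      · right; exact h
      · left; exact ⟨(hAsub hb).1, h⟩
    exact ((hs2 _ hcon).union (countable_singleton _)).mono h1
  have hsK : s ∈ K := by
    have h0 : ∃ t, t ⊆ K ∧ t.Nonempty ∧ BddAbove t ∧ sSup t = s :=
      ⟨A, fun a ha => (hAsub ha).1, hAne, hAbdd, hsup⟩
    have h1 : s ∈ closure K := ((mem_closure_tfae s K).out 0 3).2 h0
    rwa [hK.closure_eq] at h1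
  apply (hKS hsK).2
  apply le_antisymm
  · by_contra hcon
    rw [not_le] at hcon
    have h1 := sSup_lt_of_lt_cof (s := A) (a := s) (by
      rw [hA, ← lift_cof]
      rw [← Cardinal.lift_lt.{u, u+1}] at hcon
      simpa using hcon) hAlt
    exact h1.ne hsup
  · rw [← succ_aleph0, succ_le_iff]
    by_contra hcon
    rw [not_lt] at hcon
    obtain ⟨T, hT, hTc⟩ := Order.exists_cof_eq (Iio s)
    have hTc' : T.Countable := by
      rw [← le_aleph0_iff_set_countable, hTc, Ordinal.cof_Iio, ← lift_cof]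
      exact Cardinal.lift_le_aleph0.2 hcon
    apply hs1
    have h1 : K ∩ Iio s ⊆ ⋃ t ∈ T, ((K ∩ Iio (t : Ordinal.{u})) ∪ {(t : Ordinal.{u})}) := by
      intro b hb
      obtain ⟨t, ht, hbt⟩ := hT ⟨b, hb.2⟩
      rw [mem_iUnion₂]
      refine ⟨t, ht, ?_⟩
      have hbt' : b ≤ (t : Ordinal.{u}) := hbt
      rcases hbt'.eq_or_lt with h | h
      · right; exact h
      · left; exact ⟨hb.1, h⟩
    exact (hTc'.biUnion fun t _ => (hs2 _ t.2).union (countable_singleton _)).mono h1


/-- A space in which every sequence has a convergent subsequence contains no fan. -/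
lemma not_fan {X : Type u} [TopologicalSpace X]
    (hX : ∀ p : ℕ → X, ∃ y, ∃ φ : ℕ → ℕ, StrictMono φ ∧ Tendsto (p ∘ φ) atTop (𝓝 y))
    {ι : Type v} (F : ι → Set X) : ¬ IsFan F := by
  rintro ⟨hcf, hlf⟩
  apply hlf
  have hfin : {i | (F i).Nonempty}.Finite := by
    by_contra hinf
    have hinf' : {i | (F i).Nonempty}.Infinite := hinf
    set f := hinf'.natEmbedding with hf
    have hp : ∀ n, ∃ p : X, p ∈ F (f n) := fun n => (f n).2
    choose p hp using hp
    obtain ⟨y, φ, hφ, hy⟩ := hX p
    have hK := hy.isCompact_insert_range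
    refine absurd (hcf _ hK) ?_
    have hinj : Function.Injective (fun n => ((f (φ n) : {i | (F i).Nonempty}) : ι)) :=
      Subtype.val_injective.comp (f.injective.comp hφ.injective)
    refine Set.Infinite.mono ?_ (Set.infinite_range_of_injective hinj)
    rintro _ ⟨n, rfl⟩
    exact ⟨p (φ n), hp _, Or.inr ⟨n, rfl⟩⟩
  intro x
  exact ⟨univ, univ_mem, hfin.subset fun i hi => hi.mono inter_subset_left⟩

/-- There is a Tychonoff space that contains no fan at all (in particular no fan with closed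
members, i.e. no Cld-fan) and is not a k-space. The space is the subspace
`{a | a ≤ ω₂ ∧ cof a ≠ ℵ₁}` of the ordinals with the order topology. -/
theorem result : ∃ (X : Type u) (_ : TopologicalSpace X), T35Space X ∧
    (∀ (ι : Type v) (F : ι → Set X), ¬ IsFan F) ∧ ¬ IsKSpace X := by
  have hSb : (S : Set Ordinal.{u}) ⊆ Iic (ω_ 2) := fun a ha => ha.1
  have : Small.{u} (S : Set Ordinal.{u}) := small_subset hSb
  let e := Shrink.homeomorph (S : Set Ordinal.{u})
  refine ⟨Shrink.{u} (S : Set Ordinal.{u}), inferInstance, e.symm.isEmbedding.t35Space, ?_, ?_⟩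
  · intro ι F
    apply not_fan
    intro p
    obtain ⟨y, hy, φ, hφ, hlim⟩ := exists_subseq (fun n => (e.symm (p n) : Ordinal.{u}))
      (fun n => (e.symm (p n)).2)
    refine ⟨e ⟨y, hy⟩, φ, hφ, ?_⟩
    have h1 : Tendsto (fun n => e.symm (p (φ n))) atTop (𝓝 (⟨y, hy⟩ : (S : Set Ordinal.{u}))) := by
      rw [tendsto_subtype_rng]
      exact hlim
    have h2 := (e.continuous.tendsto _).comp h1
    refine h2.congr fun n => ?_
    simp
  · intro hk
    set j : Shrink.{u} (S : Set Ordinal.{u}) → Ordinal.{u} := fun x => (e.symm x : Ordinal.{u}) with hj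
    have hje : IsEmbedding j := IsEmbedding.subtypeVal.comp e.symm.isEmbedding
    have hjS : ∀ x, j x ∈ (S : Set Ordinal.{u}) := fun x => (e.symm x).2
    have hC : IsClosed (j ⁻¹' (Iio (ω_ 2))) := by
      apply hk
      intro K hK
      have hK' : IsCompact (j '' K) := hK.image hje.continuous
      have hKS : j '' K ⊆ S := by rintro _ ⟨x, -, rfl⟩; exact hjS x
      have hcount := countable_of_isClosed _ hK'.isClosed hKS
      have hcount' : (j '' K ∩ Iio (ω_ 2)).Countable := hcount.mono inter_subset_left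
      have hlt : sSup (j '' K ∩ Iio (ω_ 2)) < ω_ 2 := by
        apply sSup_lt_of_lt_cof _ (fun i hi => hi.2)
        refine lt_of_le_of_lt (le_aleph0_iff_set_countable.2 hcount') ?_
        rw [← lift_cof, cof_omega_two]
        rw [Cardinal.aleph0_lt_lift]
        exact aleph0_lt_aleph_one.trans aleph_one_lt_two
      have heq : (Subtype.val : K → _) ⁻¹' (j ⁻¹' (Iio (ω_ 2))) =
          (Subtype.val : K → _) ⁻¹' (j ⁻¹' (Iic (sSup (j '' K ∩ Iio (ω_ 2))))) := by
        ext x
        constructor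
        · intro hx
          exact le_csSup ⟨ω_ 2, fun a ha => ha.2.le⟩ ⟨⟨x, x.2, rfl⟩, hx⟩
        · intro hx
          exact lt_of_le_of_lt hx hlt
      rw [heq]
      exact isClosed_Iic.preimage (hje.continuous.comp continuous_subtype_val)
    -- but `ω₂` is in the closure
    have hcl := hje.closure_eq_preimage_closure_image (j ⁻¹' (Iio (ω_ 2)))
    rw [hC.closure_eq] at hcl
    have htop : j (e ⟨ω_ 2, mem_S_top⟩) = ω_ 2 := by simp [hj]
    have hmem : e ⟨ω_ 2, mem_S_top⟩ ∈ j ⁻¹' (closure (j '' (j ⁻¹' (Iio (ω_ 2))))) := by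
      rw [mem_preimage, htop]
      have h0 : ∃ t, t ⊆ (j '' (j ⁻¹' (Iio (ω_ 2)))) ∧ t.Nonempty ∧ BddAbove t ∧
          sSup t = (ω_ 2 : Ordinal.{u}) := by
        refine ⟨{a | ∃ b < (ω_ 2 : Ordinal.{u}), a = succ b}, ?_, ?_, ?_, ?_⟩
        · rintro a ⟨b, hb, rfl⟩
          have hlim : IsSuccLimit (ω_ 2 : Ordinal.{u}) := isSuccLimit_omega 2
          have hlt : succ b < ω_ 2 := hlim.succ_lt hb
          have hsS : succ b ∈ (S : Set Ordinal.{u}) := by
            refine ⟨hlt.le, ?_⟩
            rw [succ_eq_add_one, cof_add_one]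
            exact (one_lt_aleph0.trans aleph0_lt_aleph_one).ne
          exact ⟨e ⟨succ b, hsS⟩, by simpa [hj] using hlt, by simp [hj]⟩
        · exact ⟨succ 0, 0, omega_pos 2, rfl⟩
        · refine ⟨ω_ 2, ?_⟩
          rintro a ⟨b, hb, rfl⟩
          exact succ_le_of_lt hb
        · apply le_antisymm
          · apply csSup_le'
            rintro a ⟨b, hb, rfl⟩
            exact succ_le_of_lt hb
          · by_contra hcon
            rw [not_le] at hcon
            have h1 : succ (sSup {a | ∃ b < (ω_ 2 : Ordinal.{u}), a = succ b}) ≤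
                sSup {a | ∃ b < (ω_ 2 : Ordinal.{u}), a = succ b} := by
              apply le_csSup
              · refine ⟨ω_ 2, ?_⟩
                rintro a ⟨b, hb, rfl⟩
                exact succ_le_of_lt hb
              · exact ⟨_, hcon, rfl⟩
            exact absurd h1 (not_le.mpr (lt_succ _))
      exact ((mem_closure_tfae (ω_ 2) (j '' (j ⁻¹' (Iio (ω_ 2))))).out 0 3).2 h0
    rw [← hcl] at hmem
    have : j (e ⟨ω_ 2, mem_S_top⟩) < ω_ 2 := hmem
    rw [htop] at this
    exact lt_irrefl _ this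

end Pool.Agent.Results.MP_99bf3a_gt.NoFanNotK
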